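import Mathlib

/-! Tensor products of central simple algebras are central simple. -/

set_option autoImplicit false
set_option linter.all false

open scoped TensorProduct

noncomputable section

namespace Pool.Agent.Helper18.Br

universe u v w

variable {K : Type u} [Field K] {A : Type v} {B : Type w} [Ring A] [Ring B] [Algebra K A] [Algebra K B]

/-- coordinates of `A ⊗ B` with respect to a basis of `B`. -/
def co {ι : Type*} (b : Module.Basis ι K B) (t : A ⊗[K] B) : ι →₀ A :=
  (Algebra.TensorProduct.basis A b).repr t

variable {ι : Type*} (b : Module.Basis ι K B)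

theorem co_tmul (a : A) (m : B) (i : ι) : co b (a ⊗ₜ[K] m) i = a * algebraMap K A (b.repr m i) := by
  simp [co, Algebra.TensorProduct.basis_repr_tmul]

theorem co_add (s t : A ⊗[K] B) : co b (s + t) = co b s + co b t := by simp [co]

theorem co_sub (s t : A ⊗[K] B) : co b (s - t) = co b s - co b t := by simp [co]

theorem co_neg (t : A ⊗[K] B) : co b (-t) = - co b t := by simp [co]

theorem co_zero : co (A := A) b 0 = 0 := by simp [co]

theorem co_inj {s t : A ⊗[K] B} (h : co b s = co b t) : s = t :=
  (Algebra.TensorProduct.basis A b).repr.injective h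

theorem co_left (a : A) (t : A ⊗[K] B) (i : ι) : co b ((a ⊗ₜ[K] (1 : B)) * t) i = a * co b t i := by
  induction t using TensorProduct.induction_on with
  | zero => simp [co_zero]
  | tmul x y => simp only [Algebra.TensorProduct.tmul_mul_tmul, one_mul, co_tmul, mul_assoc]
  | add s t hs ht => rw [mul_add, co_add, co_add, Finsupp.add_apply, Finsupp.add_apply, hs, ht, mul_add]

theorem co_right (a : A) (t : A ⊗[K] B) (i : ι) : co b (t * (a ⊗ₜ[K] (1 : B))) i = co b t i * a := by
  induction t using TensorProduct.induction_on with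
  | zero => simp [co_zero]
  | tmul x y =>
    simp only [Algebra.TensorProduct.tmul_mul_tmul, mul_one, co_tmul, mul_assoc]
    rw [← Algebra.commutes]
  | add s t hs ht => rw [add_mul, co_add, co_add, Finsupp.add_apply, Finsupp.add_apply, hs, ht, add_mul]

/-- if all coordinates are scalars then the tensor is `1 ⊗ m`. -/
theorem exists_one_tmul (t : A ⊗[K] B) (h : ∀ i, ∃ k : K, algebraMap K A k = co b t i) :
    ∃ m : B, t = (1 : A) ⊗ₜ[K] m := by
  classical
  choose k hk using h
  by_cases hn : Nontrivial A
  · have hinj : Function.Injective (algebraMap K A) := FaithfulSMul.algebraMap_injective K A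
    have hk0 : ∀ i, i ∉ (co b t).support → k i = 0 := by
      intro i hi
      apply hinj
      rw [hk i, map_zero]
      exact Finsupp.notMem_support_iff.1 hi
    refine ⟨b.repr.symm (Finsupp.onFinset (co b t).support k (fun i hi => by
      by_contra h
      exact hi (hk0 i h))), ?_⟩
    apply co_inj b
    ext i
    rw [co_tmul, one_mul, LinearEquiv.apply_symm_apply, Finsupp.onFinset_apply, hk i]
  · have hs : Subsingleton A := not_nontrivial_iff_subsingleton.1 hn
    refine ⟨0, ?_⟩
    apply co_inj b
    ext i
    exact Subsingleton.elim _ _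

/-- the tensor product of central algebras over a field is central -/
theorem isCentral_tensor [Algebra.IsCentral K A] [Algebra.IsCentral K B] :
    Algebra.IsCentral K (A ⊗[K] B) where
  out t ht := by
    classical
    rw [Subalgebra.mem_center_iff] at ht
    have b := Module.Basis.ofVectorSpace K B
    obtain ⟨m, hm⟩ := exists_one_tmul b t (fun i => by
      have hc : co b t i ∈ Subalgebra.center K A := by
        rw [Subalgebra.mem_center_iff]
        intro a
        rw [← co_left, ← co_right, ht]
      rw [Algebra.IsCentral.center_eq_bot] at hc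
      exact Algebra.mem_bot.1 hc)
    subst hm
    by_cases hn : Nontrivial A
    · have hc : m ∈ Subalgebra.center K B := by
        rw [Subalgebra.mem_center_iff]
        intro c
        have h1 := ht ((1 : A) ⊗ₜ[K] c)
        rw [Algebra.TensorProduct.tmul_mul_tmul, Algebra.TensorProduct.tmul_mul_tmul, one_mul] at h1
        exact Algebra.TensorProduct.includeRight_injective (A := A) (FaithfulSMul.algebraMap_injective K A) h1
      rw [Algebra.IsCentral.center_eq_bot] at hc
      obtain ⟨k, hk⟩ := Algebra.mem_bot.1 hc
      refine Algebra.mem_bot.2 ⟨k, ?_⟩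
      rw [← hk, Algebra.TensorProduct.algebraMap_apply, Algebra.algebraMap_eq_smul_one,
        TensorProduct.smul_tmul, ← Algebra.algebraMap_eq_smul_one]
    · have hs : Subsingleton A := not_nontrivial_iff_subsingleton.1 hn
      have e : (1 : A) ⊗ₜ[K] m = 0 := by
        rw [Subsingleton.elim (1 : A) 0, TensorProduct.zero_tmul]
      rw [e]
      exact Subalgebra.zero_mem _

/-- the tensor product of a central simple algebra with a simple algebra is simple -/
theorem isSimple_tensor [Algebra.IsCentral K A] [IsSimpleRing A] [IsSimpleRing B] :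
    IsSimpleRing (A ⊗[K] B) := by
  classical
  have : Nontrivial (A ⊗[K] B) := by
    have : Nontrivial A := inferInstance
    have : Nontrivial B := inferInstance
    exact Algebra.TensorProduct.nontrivial_of_algebraMap_injective_of_flat_left K A B
      (FaithfulSMul.algebraMap_injective K B)
  refine IsSimpleRing.of_eq_bot_or_eq_top fun I => ?_
  rw [or_iff_not_imp_left, ← I.one_mem_iff]
  intro hI
  have b := Module.Basis.ofVectorSpace K B
  -- an element with minimal support
  have hex : ∃ n : ℕ, ∃ t ∈ I, t ≠ 0 ∧ (co b t).support.card = n := by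
    obtain ⟨x, hx1, hx2⟩ := SetLike.exists_of_lt (bot_lt_iff_ne_bot.mpr hI : ⊥ < I)
    exact ⟨_, x, hx1, hx2, rfl⟩
  obtain ⟨t, htI, ht0, htn⟩ := Nat.find_spec hex
  have hmin : ∀ s ∈ I, (co b s).support.card < (co b t).support.card → s = 0 := by
    intro s hs h
    by_contra hs0
    exact Nat.find_min hex (m := (co b s).support.card) (by rw [← htn]; exact h) ⟨s, hs, hs0, rfl⟩
  have hsupp : (co b t).support.Nonempty := by
    rw [Finset.nonempty_iff_ne_empty]
    intro h
    apply ht0
    apply co_inj b
    rw [Finsupp.support_eq_empty.1 h, co_zero]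
  obtain ⟨i0, hi0⟩ := hsupp
  -- the ideal of leading coefficients
  let J : TwoSidedIdeal A := TwoSidedIdeal.mk' {a | ∃ s ∈ I, (co b s).support ⊆ (co b t).support ∧ co b s i0 = a}
    ⟨0, I.zero_mem, by simp [co_zero], by simp [co_zero]⟩
    (by
      rintro x y ⟨s, hs, h1, rfl⟩ ⟨s', hs', h1', rfl⟩
      refine ⟨s + s', I.add_mem hs hs', ?_, by simp [co_add]⟩
      rw [co_add]
      exact Finsupp.support_add.trans (Finset.union_subset h1 h1'))
    (by
      rintro x ⟨s, hs, h1, rfl⟩
      refine ⟨- s, I.neg_mem hs, ?_, by rw [co_neg, Finsupp.neg_apply]⟩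
      rw [co_neg, Finsupp.support_neg]
      exact h1)
    (by
      rintro x y ⟨s, hs, h1, rfl⟩
      refine ⟨(x ⊗ₜ[K] (1 : B)) * s, I.mul_mem_left _ _ hs, ?_, co_left b x s i0⟩
      intro i hi
      apply h1
      rw [Finsupp.mem_support_iff] at hi ⊢
      intro h
      exact hi (by rw [co_left, h, mul_zero]))
    (by
      rintro x y ⟨s, hs, h1, rfl⟩
      refine ⟨s * (y ⊗ₜ[K] (1 : B)), I.mul_mem_right _ _ hs, ?_, co_right b y s i0⟩
      intro i hi
      apply h1
      rw [Finsupp.mem_support_iff] at hi ⊢
      intro h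
      exact hi (by rw [co_right, h, zero_mul]))
  have hJ : ∀ a, a ∈ J ↔ ∃ s ∈ I, (co b s).support ⊆ (co b t).support ∧ co b s i0 = a := by
    intro a
    exact TwoSidedIdeal.mem_mk' _ _ _ _ _ _ _
  have h1J : (1 : A) ∈ J := by
    apply IsSimpleRing.one_mem_of_ne_zero_mem J (x := co b t i0)
    · exact Finsupp.mem_support_iff.1 hi0
    · rw [hJ]
      exact ⟨t, htI, Finset.Subset.refl _, rfl⟩
  obtain ⟨s, hsI, hss, hs1⟩ := (hJ 1).1 h1J
  obtain ⟨m, hm⟩ := exists_one_tmul b s (fun i => by
    have hc : co b s i ∈ Subalgebra.center K A := by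
      rw [Subalgebra.mem_center_iff]
      intro a
      have hz : (a ⊗ₜ[K] (1 : B)) * s - s * (a ⊗ₜ[K] (1 : B)) = 0 := by
        apply hmin _ (I.sub_mem (I.mul_mem_left _ _ hsI) (I.mul_mem_right _ _ hsI))
        apply Finset.card_lt_card
        rw [Finset.ssubset_iff_of_subset]
        · refine ⟨i0, hi0, ?_⟩
          rw [Finsupp.notMem_support_iff, co_sub, Finsupp.sub_apply, co_left, co_right, hs1]
          simp
        · intro j hj
          apply hss
          rw [Finsupp.mem_support_iff] at hj ⊢
          intro h
          exact hj (by rw [co_sub, Finsupp.sub_apply, co_left, co_right, h, mul_zero, zero_mul, sub_zero])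
      have h2 : co b ((a ⊗ₜ[K] (1 : B)) * s - s * (a ⊗ₜ[K] (1 : B))) i = 0 := by
        rw [hz, co_zero]; rfl
      rw [co_sub, Finsupp.sub_apply, co_left, co_right] at h2
      exact sub_eq_zero.1 h2
    rw [Algebra.IsCentral.center_eq_bot] at hc
    exact Algebra.mem_bot.1 hc)
  have hm0 : m ≠ 0 := by
    rintro rfl
    rw [TensorProduct.tmul_zero] at hm
    rw [hm, co_zero] at hs1
    exact one_ne_zero hs1.symm
  -- the ideal of B
  let J' : TwoSidedIdeal B := TwoSidedIdeal.comap
    (Algebra.TensorProduct.includeRight : B →ₐ[K] A ⊗[K] B) I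
  have hJ' : (1 : B) ∈ J' := by
    apply IsSimpleRing.one_mem_of_ne_zero_mem J' hm0
    rw [TwoSidedIdeal.mem_comap]
    change (1 : A) ⊗ₜ[K] m ∈ I
    rw [← hm]
    exact hsI
  rw [TwoSidedIdeal.mem_comap, map_one] at hJ'
  exact hJ'

end Pool.Agent.Helper18.Br
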