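import Mathlib
import Pool.Agent.H47.L.R_seed8.Helper18.Br.TensorCSA

/-! The group structure on the Brauer group of a field. -/

set_option autoImplicit false
set_option linter.all false

open scoped TensorProduct

noncomputable section

namespace Pool.Agent.Helper18.Br

universe u

variable {K : Type u} [Field K]

/-- A central simple algebra, bundled. -/
def csaOf (K : Type u) [Field K] (A : Type u) [Ring A] [Algebra K A] [Algebra.IsCentral K A] [IsSimpleRing A]
    [FiniteDimensional K A] : CSA.{u, u} K where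
  toAlgCat := AlgCat.of K A
  isCentral := inferInstanceAs (Algebra.IsCentral K A)
  isSimple := inferInstanceAs (IsSimpleRing A)
  fin_dim := inferInstanceAs (FiniteDimensional K A)

/-- The tensor product `A ⊗ B` of two central simple algebras. -/
def csaTensor (A B : CSA.{u, u} K) : CSA.{u, u} K :=
  letI : Algebra.IsCentral K (A ⊗[K] B) := isCentral_tensor
  letI : IsSimpleRing (A ⊗[K] B) := isSimple_tensor
  csaOf K (A ⊗[K] B)

/-- The opposite algebra of a central simple algebra. -/
def csaOp (A : CSA.{u, u} K) : CSA.{u, u} K := csaOf K (A : Type u)ᵐᵒᵖ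

/-- The class of `K` itself. -/
def csaOne (K : Type u) [Field K] : CSA.{u, u} K := csaOf K K

/-- Brauer equivalence for unbundled algebras. -/
def BrEq (K : Type u) [Field K] (A B : Type u) [Ring A] [Ring B] [Algebra K A] [Algebra K B] : Prop :=
  ∃ n m : ℕ, n ≠ 0 ∧ m ≠ 0 ∧ (Nonempty <| Matrix (Fin n) (Fin n) A ≃ₐ[K] Matrix (Fin m) (Fin m) B)

theorem isBrauerEquivalent_iff (A B : CSA.{u, u} K) : IsBrauerEquivalent A B ↔ BrEq K A B := Iff.rfl

section
variable {A A' B B' : Type u} [Ring A] [Ring B] [Algebra K A] [Algebra K B] [Ring A'] [Ring B'] [Algebra K A'] [Algebra K B']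

theorem BrEq.of_equiv (e : A ≃ₐ[K] B) : BrEq K A B := ⟨1, 1, one_ne_zero, one_ne_zero, ⟨e.mapMatrix⟩⟩

/-- equivalence with matrices -/
theorem BrEq.of_matrix {n : ℕ} (hn : n ≠ 0) (e : A ≃ₐ[K] Matrix (Fin n) (Fin n) B) : BrEq K A B := by
  refine ⟨1, n, one_ne_zero, hn, ⟨?_⟩⟩
  exact (e.mapMatrix (m := Fin 1)).trans ((Matrix.compAlgEquiv _ _ _ _).trans
    (Matrix.reindexAlgEquiv K B (Equiv.uniqueProd (Fin n) (Fin 1))))

theorem BrEq.tensor (h : BrEq K A A') (h' : BrEq K B B') : BrEq K (A ⊗[K] B) (A' ⊗[K] B') := by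
  obtain ⟨n, m, hn, hm, ⟨e⟩⟩ := h
  obtain ⟨p, q, hp, hq, ⟨f⟩⟩ := h'
  refine ⟨n * p, m * q, mul_ne_zero hn hp, mul_ne_zero hm hq, ⟨?_⟩⟩
  refine (Matrix.reindexAlgEquiv K _ finProdFinEquiv).symm.trans ?_
  refine (Matrix.kroneckerTMulAlgEquiv (Fin n) (Fin p) K K A B).symm.trans ?_
  refine (Algebra.TensorProduct.congr e f).trans ?_
  refine (Matrix.kroneckerTMulAlgEquiv (Fin m) (Fin q) K K A' B').trans ?_
  exact Matrix.reindexAlgEquiv K _ finProdFinEquiv

theorem BrEq.op (h : BrEq K A A') : BrEq K Aᵐᵒᵖ A'ᵐᵒᵖ := by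
  obtain ⟨n, m, hn, hm, ⟨e⟩⟩ := h
  refine ⟨n, m, hn, hm, ⟨?_⟩⟩
  exact (AlgEquiv.mopMatrix (R := K) (m := Fin n) (α := A)).trans (e.op.trans AlgEquiv.mopMatrix.symm)

/-- `A ⊗ Aᵒᵖ` is a matrix algebra over `K`. -/
theorem brEq_op_tensor [Algebra.IsCentral K A] [IsSimpleRing A] [FiniteDimensional K A] :
    BrEq K (Aᵐᵒᵖ ⊗[K] A) K := by
  have : Nontrivial A := inferInstance
  have h1 : IsSimpleRing (A ⊗[K] Aᵐᵒᵖ) := isSimple_tensor
  have hn : Module.finrank K A ≠ 0 := (Module.finrank_pos (R := K) (M := A)).ne'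
  let b := Module.finBasis K A
  have hinj : Function.Injective (AlgHom.mulLeftRight K A) := (AlgHom.mulLeftRight K A).toRingHom.injective
  have hbij : Function.Bijective (AlgHom.mulLeftRight K A) := by
    refine ⟨hinj, ?_⟩
    have h2 : Module.finrank K (A ⊗[K] Aᵐᵒᵖ) = Module.finrank K (Module.End K A) := by
      rw [Module.finrank_tensorProduct, Module.finrank_linearMap,
        (MulOpposite.opLinearEquiv K : A ≃ₗ[K] Aᵐᵒᵖ).finrank_eq]
    exact (LinearMap.injective_iff_surjective_of_finrank_eq_finrank (f := (AlgHom.mulLeftRight K A).toLinearMap) h2).1 hinj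
  refine BrEq.of_matrix hn ?_
  exact (Algebra.TensorProduct.comm K _ _).trans ((AlgEquiv.ofBijective _ hbij).trans (algEquivMatrix b))

end

/-- The Brauer group of a field: the multiplication is given by the tensor product over `K`, the unit
is the class of `K`, and the inverse is given by the opposite algebra. -/
instance instCommGroupBrauer (K : Type u) [Field K] : CommGroup (BrauerGroup.{u, u} K) where
  mul := Quotient.map₂ csaTensor (fun _ _ h _ _ h' => BrEq.tensor h h')
  one := Quotient.mk (Brauer.CSA_Setoid K) (csaOne K)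
  inv := Quotient.map csaOp (fun _ _ h => BrEq.op h)
  mul_assoc := by
    rintro ⟨A⟩ ⟨B⟩ ⟨C⟩
    exact Quotient.sound (BrEq.of_equiv (Algebra.TensorProduct.assoc K K K A B C))
  mul_comm := by
    rintro ⟨A⟩ ⟨B⟩
    exact Quotient.sound (BrEq.of_equiv (Algebra.TensorProduct.comm K A B))
  one_mul := by
    rintro ⟨A⟩
    exact Quotient.sound (BrEq.of_equiv (Algebra.TensorProduct.lid K A))
  mul_one := by
    rintro ⟨A⟩
    exact Quotient.sound (BrEq.of_equiv (Algebra.TensorProduct.rid K K A))
  inv_mul_cancel := by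
    rintro ⟨A⟩
    exact Quotient.sound (brEq_op_tensor (A := A))

/-- The class `[A]` in the Brauer group of `K` of a finite-dimensional central simple algebra `A`. -/
def brauerClass (K : Type u) [Field K] (A : Type u) [Ring A] [Algebra K A] [Algebra.IsCentral K A] [IsSimpleRing A]
    [FiniteDimensional K A] : BrauerGroup.{u, u} K :=
  Quotient.mk (Brauer.CSA_Setoid K) (csaOf K A)

section
variable {A B : Type u} [Ring A] [Algebra K A] [Algebra.IsCentral K A] [IsSimpleRing A]
    [FiniteDimensional K A] [Ring B] [Algebra K B] [Algebra.IsCentral K B] [IsSimpleRing B]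
    [FiniteDimensional K B]

theorem brauerClass_eq_iff : brauerClass K A = brauerClass K B ↔ BrEq K A B :=
  ⟨fun h => Quotient.exact h, fun h => Quotient.sound h⟩

theorem brauerClass_mul_eq {C : Type u} [Ring C] [Algebra K C] [Algebra.IsCentral K C] [IsSimpleRing C]
    [FiniteDimensional K C] (h : BrEq K (A ⊗[K] B) C) : brauerClass K A * brauerClass K B = brauerClass K C :=
  Quotient.sound h

theorem brauerClass_eq_one_iff : brauerClass K A = 1 ↔ BrEq K A K :=
  ⟨fun h => Quotient.exact h, fun h => Quotient.sound h⟩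

end

end Pool.Agent.Helper18.Br
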